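import Pool.Agent.W921.VP.DefsC

set_option autoImplicit false

/-!
# Project VP: subtask FIN
-/

namespace Pool.Agent.W839.VPFIN

open FirstOrder Set
open FirstOrder.Language (Theory BoundedFormula)
open Pool.Agent.W921.VP

variable {L : FirstOrder.Language.{0, 0}}

theorem term_realize [L.IsRelational] {M N : Type} (S : L.Structure M) (S' : L.Structure N)
    (e : M ≃ N) {α : Type} (v : α → M) (t : L.Term α) :
    e (@Language.Term.realize L M S α v t) = @Language.Term.realize L N S' α (e ∘ v) t := by
  induction t with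
  | var a => rfl
  | func f _ _ => exact isEmptyElim f

theorem form [L.IsRelational] {α : Type} {n : ℕ} (φ : L.BoundedFormula α n) :
    ∃ F : Finset (Sym L), ∀ (M N : Type) (S : L.Structure M) (S' : L.Structure N) (e : M ≃ N),
      FIso S S' F e → ∀ (v : α → M) (xs : Fin n → M),
        (@BoundedFormula.Realize L M S α n φ v xs ↔
          @BoundedFormula.Realize L N S' α n φ (e ∘ v) (e ∘ xs)) := by
  classical
  induction φ with
  | falsum => exact ⟨∅, fun M N S S' e _ v xs => Iff.rfl⟩
  | equal t₁ t₂ =>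
    refine ⟨∅, fun M N S S' e _ v xs => ?_⟩
    show @Language.Term.realize L M S _ (Sum.elim v xs) t₁ =
        @Language.Term.realize L M S _ (Sum.elim v xs) t₂ ↔
      @Language.Term.realize L N S' _ (Sum.elim (e ∘ v) (e ∘ xs)) t₁ =
        @Language.Term.realize L N S' _ (Sum.elim (e ∘ v) (e ∘ xs)) t₂
    rw [← Sum.comp_elim, ← term_realize S S' e, ← term_realize S S' e, e.injective.eq_iff]
  | rel R ts =>
    refine ⟨{⟨_, R⟩}, fun M N S S' e he v xs => ?_⟩
    have h := he ⟨_, R⟩ (Finset.mem_singleton_self _)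
      (fun i => @Language.Term.realize L M S _ (Sum.elim v xs) (ts i))
    show S.RelMap R (fun i => @Language.Term.realize L M S _ (Sum.elim v xs) (ts i)) ↔
      S'.RelMap R (fun i => @Language.Term.realize L N S' _ (Sum.elim (e ∘ v) (e ∘ xs)) (ts i))
    rw [h]
    have : (fun i => e (@Language.Term.realize L M S _ (Sum.elim v xs) (ts i))) =
        (fun i => @Language.Term.realize L N S' _ (Sum.elim (e ∘ v) (e ∘ xs)) (ts i)) := by
      funext i
      rw [← Sum.comp_elim, ← term_realize S S' e]
    rw [← this]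
  | imp φ₁ φ₂ ih₁ ih₂ =>
    obtain ⟨F₁, h₁⟩ := ih₁
    obtain ⟨F₂, h₂⟩ := ih₂
    refine ⟨F₁ ∪ F₂, fun M N S S' e he v xs => ?_⟩
    have a₁ := h₁ M N S S' e (fun R hR => he R (Finset.mem_union_left _ hR)) v xs
    have a₂ := h₂ M N S S' e (fun R hR => he R (Finset.mem_union_right _ hR)) v xs
    exact imp_congr a₁ a₂
  | all φ ih =>
    obtain ⟨F, h⟩ := ih
    refine ⟨F, fun M N S S' e he v xs => ?_⟩
    constructor
    · intro H y
      have h1 := (h M N S S' e he v (Fin.snoc xs (e.symm y))).1 (H (e.symm y))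
      have h2 : e ∘ (Fin.snoc xs (e.symm y) : Fin _ → M) = Fin.snoc (e ∘ xs) y := by
        rw [Fin.comp_snoc, e.apply_symm_apply]
      rw [h2] at h1
      exact h1
    · intro H x
      refine (h M N S S' e he v (Fin.snoc xs x)).2 ?_
      have h2 : e ∘ (Fin.snoc xs x : Fin _ → M) = Fin.snoc (e ∘ xs) (e x) := Fin.comp_snoc _ _ _
      rw [h2]
      exact H (e x)

theorem task : Pool.Agent.W921.VP.S_FIN := by
  intro L hL T M N S S' hF hS
  haveI := hL
  have hS' : @Theory.Model L M S T := hS
  show @Theory.Model L N S' T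
  refine @Theory.Model.mk L N S' T (fun σ hσ => ?_)
  obtain ⟨F, h⟩ := form (σ : L.BoundedFormula Empty 0)
  obtain ⟨e, he⟩ := hF F
  have h1 := (h M N S S' e he default default).1 (@Theory.Model.realize_of_mem L M S T hS' σ hσ)
  have e1 : (e ∘ (default : Empty → M)) = (default : Empty → N) := Subsingleton.elim _ _
  have e2 : (e ∘ (default : Fin 0 → M)) = (default : Fin 0 → N) := Subsingleton.elim _ _
  rw [e1, e2] at h1
  exact h1

end Pool.Agent.W839.VPFIN
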